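import Pool.Agent.Helper18.SV.Goals

/-!
# Packet SV-FILL
-/

open Finset

namespace Pool.Agent.Helper89.SV.FILL

open Pool.Agent.Helper18.SV Pool.Agent.Helper95.SF

universe u

section

variable {G H : Type u} [AddCommGroup G] [Fintype G] [DecidableEq G]
    [AddCommGroup H] [Fintype H] [DecidableEq H]

lemma fib_card (f : G →+ H) (hf : Function.Surjective f) (k : ℕ)
    (hk : k * Fintype.card H = Fintype.card G) (x : H) :
    (univ.filter (fun g => f g = x)).card = k := by
  have h1 : ∀ y : H, (univ.filter (fun g => f g = y)).card =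
      (univ.filter (fun g => f g = x)).card := fun y =>
    AddMonoidHom.card_fiber_eq_of_mem_range f (hf y) (hf x)
  have h2 : (univ : Finset G).card = ∑ y : H, (univ.filter (fun g => f g = y)).card :=
    Finset.card_eq_sum_card_fiberwise (fun g _ => Finset.mem_coe.2 (Finset.mem_univ (f g)))
  rw [Finset.sum_congr rfl (fun y _ => h1 y), Finset.sum_const, smul_eq_mul,
    Finset.card_univ, Finset.card_univ, ← hk, mul_comm k] at h2
  exact (Nat.eq_of_mul_eq_mul_left (Fintype.card_pos) h2).symm

lemma part_le (f : G →+ H) (hf : Function.Surjective f) (k : ℕ)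
    (hk : k * Fintype.card H = Fintype.card G) (A : Finset G) (x : H) :
    (A.filter (fun g => f g = x)).card ≤ k := by
  rw [← fib_card f hf k hk x]
  exact Finset.card_le_card (Finset.filter_subset_filter _ (Finset.subset_univ A))

/-- (0) -/
lemma two_parts (f : G →+ H) (hf : Function.Surjective f) (k : ℕ)
    (hk : k * Fintype.card H = Fintype.card G) (A : Finset G)
    (hA : (A.image f).card * k < A.card + k) (x x' : H) (hx : x ∈ A.image f)
    (hx' : x' ∈ A.image f) (hne : x' ≠ x) :
    k < (A.filter (fun g => f g = x)).card + (A.filter (fun g => f g = x')).card := by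
  have h1 : A.card = ∑ y ∈ A.image f, (A.filter (fun g => f g = y)).card :=
    Finset.card_eq_sum_card_fiberwise (fun g hg =>
      Finset.mem_coe.2 (Finset.mem_image_of_mem f (Finset.mem_coe.1 hg)))
  have hx'' : x' ∈ (A.image f).erase x := Finset.mem_erase.2 ⟨hne, hx'⟩
  rw [← Finset.add_sum_erase _ _ hx, ← Finset.add_sum_erase _ _ hx''] at h1
  have h2 : ∑ y ∈ ((A.image f).erase x).erase x', (A.filter (fun g => f g = y)).card ≤
      (((A.image f).erase x).erase x').card * k := by
    refine (Finset.sum_le_card_nsmul _ _ k fun y _ => part_le f hf k hk A y).trans ?_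
    rw [smul_eq_mul]
  rw [Finset.card_erase_of_mem hx'', Finset.card_erase_of_mem hx] at h2
  have h3 : 2 ≤ (A.image f).card := by
    have : ({x, x'} : Finset H) ⊆ A.image f := by
      intro y hy
      rcases Finset.mem_insert.1 hy with rfl | hy
      · exact hx
      · rw [Finset.mem_singleton.1 hy]
        exact hx'
    have h4 := Finset.card_le_card this
    rw [Finset.card_pair (Ne.symm hne)] at h4
    exact h4
  obtain ⟨c, hc⟩ := Nat.exists_eq_add_of_le h3
  rw [hc] at h2 hA
  have h5 : (2 + c - 1 - 1) * k = c * k := by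
    congr 1
    omega
  rw [h5] at h2
  have h6 : (2 + c) * k = 2 * k + c * k := by ring
  rw [h6] at hA
  omega

/-- (1) -/
lemma half (f : G →+ H) (hf : Function.Surjective f) (k s : ℕ)
    (hk : k * Fintype.card H = Fintype.card G) (A : Finset G) (hs : 2 ≤ s)
    (hSF : IsSumFree s A) (x : H) (hx : x ∈ A.image f) (hsx : s • x = 0) :
    2 * (A.filter (fun g => f g = x)).card ≤ k := by
  by_contra hcon
  push_neg at hcon
  obtain ⟨a, ha, hfa⟩ := Finset.mem_image.1 hx
  set g : G := 2 • a - s • a with hg
  have hfg : f g = 2 • x := by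
    rw [hg, map_sub, map_nsmul, map_nsmul, hfa, hsx, sub_zero]
  set P := A.filter (fun g => f g = x) with hP
  set Q := P.image (fun w => g - w) with hQ
  have hQc : Q.card = P.card := Finset.card_image_of_injective _ sub_right_injective
  have hsub : P ∪ Q ⊆ univ.filter (fun g => f g = x) := by
    intro y hy
    rw [Finset.mem_filter]
    refine ⟨Finset.mem_univ _, ?_⟩
    rcases Finset.mem_union.1 hy with h | h
    · exact (Finset.mem_filter.1 h).2
    · obtain ⟨w, hw, rfl⟩ := Finset.mem_image.1 h
      rw [map_sub, hfg, (Finset.mem_filter.1 hw).2, two_nsmul, add_sub_cancel_right]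
  have hle := Finset.card_le_card hsub
  rw [fib_card f hf k hk x] at hle
  have hnd : ¬ Disjoint P Q := by
    intro hd
    rw [Finset.card_union_of_disjoint hd, hQc] at hle
    omega
  obtain ⟨v, hv, hvQ⟩ := Finset.not_disjoint_iff.1 hnd
  obtain ⟨w, hw, hvw⟩ := Finset.mem_image.1 hvQ
  have hsum : v + w = g := by
    rw [← hvw]
    exact sub_add_cancel _ _
  have hrel := (isSumFree_iff s A).1 hSF (v ::ₘ w ::ₘ Multiset.replicate (s - 2) a) 0
    (by
      intro b hb
      rcases Multiset.mem_cons.1 hb with rfl | hb
      · exact (Finset.mem_filter.1 hv).1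
      · rcases Multiset.mem_cons.1 hb with rfl | hb
        · exact (Finset.mem_filter.1 hw).1
        · rw [Multiset.eq_of_mem_replicate hb]
          exact ha)
    (by intro b hb; exact absurd hb (Multiset.notMem_zero b))
    (by rw [Multiset.card_cons, Multiset.card_cons, Multiset.card_replicate]; omega)
    (by rw [Multiset.card_zero]; omega)
    (by rw [Multiset.card_cons, Multiset.card_cons, Multiset.card_replicate,
      Multiset.card_zero]; omega)
  apply hrel
  rw [Multiset.sum_cons, Multiset.sum_cons, Multiset.sum_replicate, Multiset.sum_zero,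
    ← add_assoc, hsum, hg]
  have h2 : s • a = 2 • a + (s - 2) • a := by
    rw [← add_nsmul]
    congr 1
    omega
  rw [h2]
  abel

end

theorem t : G_FILL.{u} := by
  intro G H _ _ _ _ _ _ f hf k s hk A hs hSF hA x hx hsx
  have h1 := half f hf k s hk A hs hSF x hx hsx
  refine ⟨h1, fun x' hx' hsx' => ?_⟩
  by_contra hne
  have h2 := half f hf k s hk A hs hSF x' hx' hsx'
  have h3 := two_parts f hf k hk A hA x x' hx hx' hne
  omega

end Pool.Agent.Helper89.SV.FILL
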